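import Pool.Agent.Lib.MP_055fa7_gt.WallB

/-!
The image of the wall is a properly embedded surface.
-/

open Set Topology MatrixGroups
open Pool.Agent.Lib.MP_36248f_gt

namespace Pool.Agent.Lib.MP_055fa7_gt

/-- a parametrisation of the standard plane -/
noncomputable def j0 (x : ℝ × ℝ) : H3 := ⟨((x.1 : ℂ), Real.exp x.2), Real.exp_pos _⟩

theorem isEmbedding_j0 : IsEmbedding j0 := by
  refine IsEmbedding.of_leftInverse (f := fun q : H3 => (q.1.1.re, Real.log q.1.2))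
    (fun x => by simp [j0]) (Continuous.prodMk (by fun_prop) ?_) ?_
  · exact Continuous.log (by fun_prop) fun q => q.2.ne'
  · unfold j0
    fun_prop

theorem range_j0 : range j0 = P0 := by
  refine Subset.antisymm (by rintro _ ⟨x, rfl⟩; simp [j0, P0]) fun q hq => ?_
  refine ⟨(q.1.1.re, Real.log q.1.2), Subtype.ext (Prod.ext (Complex.ext rfl ?_) ?_)⟩
  · exact Eq.symm hq
  · exact Real.exp_log q.2

namespace Wall

variable {Γ : Subgroup SL2C} {Λ : Subgroup SL(2, ℤ)} (W : Wall Γ Λ)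
include W

theorem small {p : H3} (hp : p ∈ P0) : ∃ N, IsOpen N ∧ p ∈ N ∧ ∀ γ ∈ Γ,
    (∀ q ∈ N, act γ q ∈ N → act γ q = q) ∧ ∀ q ∈ P0, act γ q ∈ N → act γ q ∈ P0 := by
  have : LocallyCompactSpace H3 := (isOpen_lt continuous_const continuous_snd).locallyCompactSpace
  obtain ⟨Q, hQ, hQ'⟩ := exists_compact_mem_nhds p
  obtain ⟨ε, hε, h⟩ := W.pd.radius W.tf hQ
  have h1 : {x : H3 × H3 | dl x.1 x.2 < ε} ∈ nhds (p, p) :=
    (isOpen_lt continuous_dl continuous_const).mem_nhds (by simpa [dl] using hε)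
  obtain ⟨N1, a1, N2, a2, h2⟩ := mem_nhds_prod_iff.1 h1
  have hZ : IsClosed (⋃₀ ({P' | ∃ γ ∈ Γ, P' = act γ '' P0 ∧ (P' ∩ Q).Nonempty} \ {P0})) := by
    rw [sUnion_eq_biUnion]
    refine ((W.locFin hQ).subset sdiff_subset).isClosed_biUnion ?_
    rintro _ ⟨⟨γ, -, rfl, -⟩, -⟩
    exact (actH γ).isClosedMap _ isClosed_P0
  have h3 := hZ.isOpen_compl.mem_nhds (x := p) (by
    rintro ⟨_, ⟨⟨γ, hγ, rfl, -⟩, h4⟩, h5⟩
    exact disjoint_left.1 ((W.precise hγ).resolve_left h4) h5 hp)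
  obtain ⟨N, hN, ho, hpN⟩ := mem_nhds_iff.1
    (Filter.inter_mem (Filter.inter_mem hQ' h3) (Filter.inter_mem a1 a2))
  refine ⟨N, ho, hpN, fun γ hγ => ⟨fun q hq hq' =>
    h γ hγ q (hN hq).1.1 (h2 (mk_mem_prod (hN hq).2.1 (hN hq').2.2)), fun q hq hq' => ?_⟩⟩
  by_contra hc
  refine (hN hq').1.2 ⟨act γ '' P0, ⟨⟨γ, hγ, rfl, _, ⟨q, hq, rfl⟩, (hN hq').1.1⟩, fun e => hc ?_⟩,
    q, hq, rfl⟩
  exact mem_singleton_iff.1 e ▸ mem_image_of_mem _ hq

variable {K : Set S3} {π : H3 → S3} (H : IsHyp K Γ π)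
include H

theorem chart {x : S3} (hx : x ∈ π '' P0) :
    ∃ U : Set S3, IsOpen U ∧ x ∈ U ∧ Nonempty (↥(U ∩ π '' P0) ≃ₜ ℝ × ℝ) := by
  obtain ⟨p, hp, rfl⟩ := hx
  obtain ⟨N, ho, hpN, h⟩ := W.small hp
  obtain ⟨c, rfl⟩ : p ∈ range j0 := range_j0 ▸ hp
  obtain ⟨δ, hδ, hb⟩ := Metric.isOpen_iff.1 (ho.preimage isEmbedding_j0.continuous) c hpN
  obtain ⟨N', ho', e⟩ := isEmbedding_j0.isInducing.isOpen_iff.1
    (Metric.isOpen_ball (x := c) (ε := δ))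
  set u : OpenPartialHomeomorph (ℝ × ℝ) (ℝ × ℝ) := OpenPartialHomeomorph.univBall c δ
  have us : u.source = univ := OpenPartialHomeomorph.univBall_source c δ
  have ur : range u = Metric.ball c δ := by
    rw [← image_univ, ← us, u.image_source_eq_target, OpenPartialHomeomorph.univBall_target c hδ]
  have e1 : IsOpenEmbedding fun q : N => π q := by
    refine IsOpenEmbedding.of_continuous_injective_isOpenMap (H.cont.comp continuous_subtype_val)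
      (fun q q' h1 => ?_) (H.opn.comp ho.isOpenMap_subtype_val)
    obtain ⟨γ, hγ, h2⟩ := (H.fib _ _).1 h1
    exact Subtype.ext (((h γ hγ).1 q q.2 (h2 ▸ q'.2)).symm.trans h2)
  have e2 := e1.isEmbedding.comp ((isEmbedding_j0.comp (u.isOpenEmbedding us).isEmbedding).codRestrict
    N fun y => hb (ur ▸ mem_range_self y))
  refine ⟨π '' (N ∩ N'), H.opn _ (ho.inter ho'), ⟨_, ⟨hpN, ?_⟩, rfl⟩,
    ⟨(Homeomorph.setCongr ?_).trans e2.toHomeomorph.symm⟩⟩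
  · exact (e ▸ Metric.mem_ball_self hδ : c ∈ j0 ⁻¹' N')
  ext z
  constructor
  · rintro ⟨⟨q, hq, rfl⟩, q', hq', h1⟩
    obtain ⟨γ, hγ, rfl⟩ := (H.fib _ _).1 h1
    obtain ⟨y, hy⟩ : act γ q' ∈ range j0 := range_j0 ▸ (h γ hγ).2 q' hq' hq.1
    obtain ⟨y, rfl⟩ : y ∈ range u := by
      rw [ur, ← e, mem_preimage, hy]
      exact hq.2
    exact ⟨y, congrArg π hy⟩
  · rintro ⟨y, rfl⟩
    have h1 : u y ∈ Metric.ball c δ := ur ▸ mem_range_self y
    exact ⟨⟨j0 (u y), ⟨hb h1, (e ▸ h1 : u y ∈ j0 ⁻¹' N')⟩, rfl⟩, j0 (u y),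
      range_j0 ▸ mem_range_self _, rfl⟩

theorem proper {Q : Set S3} (hQ : IsCompact Q) (hK : Q ⊆ Kᶜ) : IsCompact (Q ∩ π '' P0) := by
  convert hQ.diff (H.opn _ (W.isClosed_pre H).isOpen_compl) using 1
  ext z
  refine and_congr_right fun hz => ?_
  obtain ⟨p, rfl⟩ : z ∈ range π := H.range_eq ▸ hK hz
  refine ⟨?_, fun h => by_contra fun h' => h ⟨p, h', rfl⟩⟩
  rintro h ⟨q, hq, e⟩
  exact hq (by rwa [mem_preimage, e])

end Wall

end Pool.Agent.Lib.MP_055fa7_gt
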