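import Pool.Agent.Lib.MP_36248f_gt.IsH
import Pool.Agent.Lib.MP_055fa7_gt.WallC

/-!
The standard plane is a wall of the example.
-/

open Set MatrixGroups
open Pool.Agent.Lib.MP_36248f_gt

namespace Pool.Agent.Lib.MP_055fa7_gt

theorem L_fibre {g g' : SL2C} (h : L g = L g') : g = g' ∨ g = -g' := by
  rcases (L_eq_one (g := g * g'⁻¹)).1 (by rw [map_mul, map_inv, h, mul_inv_cancel]) with h | h
  · exact Or.inl (mul_inv_eq_one.1 h)
  · exact Or.inr (by rw [mul_inv_eq_iff_eq_mul.1 h, neg_mul, one_mul])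

theorem pd_GamC : PD GamC := by
  intro Q hQ
  obtain ⟨φ, hφ⟩ := exists_homeo
  have ci : Continuous iota := (continuous_subtype_val.comp φ.continuous).congr hφ
  have hs : iota '' Q ⊆ HH := by
    rintro _ ⟨p, -, rfl⟩
    exact iota_mem p
  have h := isPD_Gam.compact Gam_le_OO (hQ.image ci) (hQ.image ci) hs hs
  refine (h.preimage' (f := L) fun γ _ => ?_).subset ?_
  · rcases (L ⁻¹' {γ}).eq_empty_or_nonempty with h | ⟨g, hg⟩
    · simp [h]
    · exact (toFinite {g, -g}).subset fun g' hg' => L_fibre (hg'.trans hg.symm)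
  · rintro γ ⟨hγ, p, hp, h⟩
    exact ⟨hγ, _, ⟨p, hp, rfl⟩, _, h, iota_act γ p⟩

theorem wall_GamC : Wall GamC LamZ where
  fi := by
    have : NeZero (25 : ℕ) := ⟨by norm_num⟩
    refine Subgroup.finiteIndex_of_le (H := CongruenceSubgroup.Gamma 25) fun m hm => ?_
    rw [CongruenceSubgroup.Gamma_mem] at hm
    refine ⟨(ZMod.intCast_zmod_eq_zero_iff_dvd _ 25).1 hm.2.2.1, Or.inl ?_⟩
    refine (show (5 : ℤ) ∣ 25 by norm_num).trans ((ZMod.intCast_zmod_eq_zero_iff_dvd _ 25).1 ?_)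
    rw [Int.cast_sub, hm.1]
    simp
  low _ hm := hm.1
  sub m hm := by
    rw [GamC, Subgroup.mem_comap, mp, ← EZ_eq]
    exact EZ_mem_Gam hm
  inv γ hγ p hp h := by
    have z : ∀ q ∈ P0, iota q 1 = 0 := fun q hq => by
      change q.1.1.im / q.1.2 = 0
      rw [show q.1.1.im = 0 from hq, zero_div]
    obtain ⟨m, hm, e⟩ := wall_inv hγ (iota_mem p) (z p hp) (by rw [← iota_act]; exact z _ h)
    refine ⟨m, hm, ?_⟩
    rcases L_fibre (e.trans (EZ_eq m)) with e | e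
    · rw [e, mp]
    · rw [e, act_neg, mp]
  pd := pd_GamC
  tf _ hγ _ hn h := torsion_free hγ hn h

theorem main : ∃ (K : Set S3) (Γ : Subgroup SL2C) (π : H3 → S3) (P : Set H3),
    IsKnot K ∧ IsHyp K Γ π ∧ IsPlane P ∧
    (∀ γ ∈ Γ, act γ '' P = P ∨ Disjoint (act γ '' P) P) ∧ IsConnected (π '' P) ∧
    (∀ x ∈ π '' P, ∃ U : Set S3, IsOpen U ∧ x ∈ U ∧ Nonempty (↥(U ∩ π '' P) ≃ₜ ℝ × ℝ)) ∧
    (∀ Q : Set S3, IsCompact Q → Q ⊆ Kᶜ → IsCompact (Q ∩ π '' P)) ∧ ¬IsCompact (π '' P) ∧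
    ∀ S : Set S3, Spans K S → IsEmpty (↥(π '' P) ≃ₜ ↥S) := by
  obtain ⟨K, π, hK, H⟩ := isHyp
  obtain ⟨h1, h2, -, -, h3, h4⟩ := wall_GamC.main H hK
  refine ⟨K, GamC, π, P0, hK, H, h1, h2, ?_, fun _ hx => wall_GamC.chart H hx,
    fun _ hQ h => wall_GamC.proper H hQ h, h3, h4⟩
  rw [← range_j0, ← range_comp]
  exact isConnected_range (H.cont.comp isEmbedding_j0.continuous)

end Pool.Agent.Lib.MP_055fa7_gt
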