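import Mathlib

/-!
Surfaces spanning a curve.
-/

open Set

namespace Pool.Agent.Lib.MP_055fa7_gt

/-- `S` is the interior of a compact connected surface `K ∪ S` with boundary `K` in the space `Y` -/
structure Spans {Y : Type} [TopologicalSpace Y] (K S : Set Y) : Prop where
  disj : Disjoint K S
  cpt : IsCompact (K ∪ S)
  conn : IsConnected (K ∪ S)
  inn : ∀ x ∈ S, ∃ U : Set Y, IsOpen U ∧ x ∈ U ∧ Nonempty (↥(U ∩ (K ∪ S)) ≃ₜ ℝ × ℝ)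
  bdy : ∀ x ∈ K, ∃ U : Set Y, IsOpen U ∧ x ∈ U ∧
    ∃ φ : ↥(U ∩ (K ∪ S)) ≃ₜ {p : ℝ × ℝ // 0 ≤ p.2},
      ∀ y : ↥(U ∩ (K ∪ S)), (y : Y) ∈ K ↔ (φ y : ℝ × ℝ).2 = 0

end Pool.Agent.Lib.MP_055fa7_gt
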