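import Pool.Agent.Lib.MP_055fa7_gt.Defs

/-!
Spaces with two ends, and surfaces spanning a connected curve.
-/

open Set Topology

namespace Pool.Agent.Lib.MP_055fa7_gt

/-- outside a compact set there are two separated parts that are not relatively compact -/
def TwoEnds (X : Type) [TopologicalSpace X] : Prop :=
  ∃ U V : Set X, IsOpen U ∧ IsOpen V ∧ Disjoint U V ∧ IsCompact (U ∪ V)ᶜ ∧
    (∀ Q, IsCompact Q → ¬U ⊆ Q) ∧ ∀ Q, IsCompact Q → ¬V ⊆ Q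

theorem TwoEnds.homeo {X X' : Type} [TopologicalSpace X] [TopologicalSpace X'] (h : TwoEnds X)
    (e : X ≃ₜ X') : TwoEnds X' := by
  obtain ⟨U, V, hU, hV, hd, hc, h1, h2⟩ := h
  refine ⟨e.symm ⁻¹' U, e.symm ⁻¹' V, hU.preimage e.symm.continuous,
    hV.preimage e.symm.continuous, hd.preimage _, ?_, fun Q hQ h => ?_, fun Q hQ h => ?_⟩
  · rw [← preimage_union, ← preimage_compl]
    exact e.symm.isCompact_preimage.2 hc
  · refine h1 (e ⁻¹' Q) (e.isCompact_preimage.2 hQ) fun x hx => h ?_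
    simpa using hx
  · refine h2 (e ⁻¹' Q) (e.isCompact_preimage.2 hQ) fun x hx => h ?_
    simpa using hx

theorem TwoEnds.not_compact {X : Type} [TopologicalSpace X] (h : TwoEnds X) :
    ¬CompactSpace X := by
  obtain ⟨U, V, -, -, -, -, h1, -⟩ := h
  intro hc
  exact h1 univ isCompact_univ (subset_univ _)

/-- near a boundary point the surface lies in one of two separated open sets -/
theorem Spans.local {Y : Type} [TopologicalSpace Y] [T2Space Y] {K S : Set Y} (h : Spans K S)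
    {U V : Set S} (hU : IsOpen U) (hV : IsOpen V) (hd : Disjoint U V) (hc : IsCompact (U ∪ V)ᶜ)
    {x : Y} (hx : x ∈ K) : ∃ N : Set Y, IsOpen N ∧ x ∈ N ∧
      (∀ y ∈ N ∩ K, ∀ N' : Set Y, IsOpen N' → y ∈ N' → ∃ s : S, (s : Y) ∈ N ∩ N') ∧
      ((∀ s : S, (s : Y) ∈ N → s ∈ U) ∨ ∀ s : S, (s : Y) ∈ N → s ∈ V) := by
  obtain ⟨W, hW, hxW, φ, hφ⟩ := h.bdy x hx
  have hC : IsClosed ((↑) '' (U ∪ V)ᶜ : Set Y) := (hc.image continuous_subtype_val).isClosed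
  have hxC : x ∉ ((↑) '' (U ∪ V)ᶜ : Set Y) := by
    rintro ⟨s, -, rfl⟩
    exact h.disj.notMem_of_mem_left hx s.2
  let x0 : ↥(W ∩ (K ∪ S)) := ⟨x, hxW, Or.inl hx⟩
  have ho : IsOpen (φ.symm ⁻¹' ((↑) ⁻¹' ((↑) '' (U ∪ V)ᶜ : Set Y)ᶜ)) :=
    (hC.isOpen_compl.preimage continuous_subtype_val).preimage φ.symm.continuous
  obtain ⟨r, hr, hb⟩ := Metric.isOpen_iff.1 ho (φ x0) (by simpa [x0] using hxC)
  obtain ⟨N0, hN0, hN⟩ := isOpen_induced_iff.1
    ((Metric.isOpen_ball (x := φ x0) (ε := r)).preimage φ.continuous)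
  have mem : ∀ y : ↥(W ∩ (K ∪ S)), (y : Y) ∈ N0 ↔ φ y ∈ Metric.ball (φ x0) r := fun y =>
    Set.ext_iff.1 hN y
  have hS : ∀ y : ↥(W ∩ (K ∪ S)), 0 < (φ y : ℝ × ℝ).2 → (y : Y) ∈ S := fun y hy =>
    y.2.2.resolve_left fun hk => hy.ne' ((hφ y).1 hk)
  refine ⟨W ∩ N0, hW.inter hN0, ⟨hxW, (mem x0).2 (Metric.mem_ball_self hr)⟩, ?_, ?_⟩
  · rintro y ⟨⟨hyW, hyN⟩, hyK⟩ N' hN' hyN'
    let y0 : ↥(W ∩ (K ∪ S)) := ⟨y, hyW, Or.inl hyK⟩
    have ho' : IsOpen (φ.symm ⁻¹' ((↑) ⁻¹' (N0 ∩ N'))) :=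
      ((hN0.inter hN').preimage continuous_subtype_val).preimage φ.symm.continuous
    obtain ⟨ρ, hρ, hb'⟩ := Metric.isOpen_iff.1 ho' (φ y0) (by simpa [y0] using ⟨hyN, hyN'⟩)
    have h0 : (φ y0 : ℝ × ℝ).2 = 0 := (hφ y0).1 hyK
    let p : {p : ℝ × ℝ // 0 ≤ p.2} := ⟨((φ y0 : ℝ × ℝ).1, ρ / 2), by positivity⟩
    have hp : p ∈ Metric.ball (φ y0) ρ := by
      rw [Metric.mem_ball, Subtype.dist_eq, Prod.dist_eq, h0]
      simp only [p, dist_self, Real.dist_eq, sub_zero]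
      rw [abs_of_pos (by positivity), max_lt_iff]
      exact ⟨hρ, by linarith⟩
    have h1 := hb' hp
    refine ⟨⟨φ.symm p, hS _ ?_⟩, ⟨(φ.symm p).2.1, h1.1⟩, h1.2⟩
    rw [φ.apply_symm_apply]
    simp only [p]
    positivity
  · let B : Set (ℝ × ℝ) := Metric.ball (φ x0 : ℝ × ℝ) r ∩ {p | 0 < p.2}
    have hB : IsPreconnected B :=
      ((convex_ball _ _).inter (convex_halfSpace_gt ⟨fun _ _ => rfl, fun _ _ => rfl⟩ 0)).isPreconnected
    have : PreconnectedSpace B := Subtype.preconnectedSpace hB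
    let ψ : B → S := fun p => ⟨φ.symm ⟨p, le_of_lt p.2.2⟩, hS _ (by
      rw [φ.apply_symm_apply]; exact p.2.2)⟩
    have hψ : Continuous ψ := by
      refine Continuous.subtype_mk (continuous_subtype_val.comp (φ.symm.continuous.comp ?_)) _
      exact continuous_subtype_val.subtype_mk _
    have hr' : IsPreconnected (range ψ) := isPreconnected_range hψ
    have hsub : range ψ ⊆ U ∪ V := by
      rintro _ ⟨p, rfl⟩
      by_contra hn
      exact hb (a := ⟨p, le_of_lt p.2.2⟩) p.2.1 ⟨ψ p, hn, rfl⟩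
    have hall : ∀ s : S, (s : Y) ∈ W ∩ N0 → s ∈ range ψ := by
      intro s hs
      let y0 : ↥(W ∩ (K ∪ S)) := ⟨s, hs.1, Or.inr s.2⟩
      have h1 : 0 < (φ y0 : ℝ × ℝ).2 := lt_of_le_of_ne (φ y0).2 fun h0 =>
        h.disj.notMem_of_mem_left ((hφ y0).2 h0.symm) s.2
      refine ⟨⟨φ y0, (mem y0).1 hs.2, h1⟩, Subtype.ext ?_⟩
      change ((φ.symm (φ y0) : ↥(W ∩ (K ∪ S))) : Y) = s
      rw [φ.symm_apply_apply]
    exact (hr'.subset_or_subset hU hV hd hsub).imp (fun h1 s hs => h1 (hall s hs))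
      fun h1 s hs => h1 (hall s hs)

theorem Spans.not_twoEnds {Y : Type} [TopologicalSpace Y] [T2Space Y] {K S : Set Y}
    (h : Spans K S) (hK : IsPreconnected K) : ¬TwoEnds S := by
  rintro ⟨U, V, hU, hV, hd, hc, h1, h2⟩
  have key : ∀ {U V : Set S}, (∀ Q, IsCompact Q → ¬V ⊆ Q) → Disjoint U V → ∀ O : Set Y, IsOpen O →
      K ⊆ O → (∀ s : S, (s : Y) ∈ O → s ∈ U) → False := by
    intro U V h2 hd O hO hKO hs
    have hQ : IsCompact ((↑) ⁻¹' Oᶜ : Set S) := by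
      rw [Subtype.isCompact_iff]
      convert h.cpt.inter_right hO.isClosed_compl using 1
      ext y
      constructor
      · rintro ⟨s, hs, rfl⟩
        exact ⟨Or.inr s.2, hs⟩
      · rintro ⟨hy | hy, hy'⟩
        · exact absurd (hKO hy) hy'
        · exact ⟨⟨y, hy⟩, hy', rfl⟩
    exact h2 _ hQ fun s hsV hsO => hd.notMem_of_mem_left (hs s hsO) hsV
  let O : Set S → Set Y := fun U => ⋃₀ {N | IsOpen N ∧ ∀ s : S, (s : Y) ∈ N → s ∈ U}
  have hO : ∀ U, IsOpen (O U) := fun U => isOpen_sUnion fun N hN => hN.1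
  have hO' : ∀ U (s : S), (s : Y) ∈ O U → s ∈ U := fun U s ⟨N, hN, hs⟩ => hN.2 s hs
  have hcov : K ⊆ O U ∪ O V := by
    intro x hx
    obtain ⟨N, hN, hxN, -, h3 | h3⟩ := h.local hU hV hd hc hx
    · exact Or.inl ⟨N, ⟨hN, h3⟩, hxN⟩
    · exact Or.inr ⟨N, ⟨hN, h3⟩, hxN⟩
  have hemp : K ∩ (O U ∩ O V) = ∅ := by
    refine eq_empty_of_forall_notMem fun x ⟨hx, hx'⟩ => ?_
    obtain ⟨N, -, hxN, h3, -⟩ := h.local hU hV hd hc hx
    obtain ⟨s, hs⟩ := h3 x ⟨hxN, hx⟩ _ ((hO U).inter (hO V)) hx'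
    exact hd.notMem_of_mem_left (hO' U s hs.2.1) (hO' V s hs.2.2)
  rcases (isPreconnected_iff_subset_of_disjoint.1 hK) _ _ (hO U) (hO V) hcov hemp with h3 | h3
  · exact key h2 hd _ (hO U) h3 (hO' U)
  · exact key h1 hd.symm _ (hO V) h3 (hO' V)

end Pool.Agent.Lib.MP_055fa7_gt
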