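import Pool.Agent.Lib.MP_36248f_gt.Dict

/-!
The modular group on the standard plane, boxes, and the injectivity radius.
-/

open Set Matrix ComplexConjugate MatrixGroups
open Pool.Agent.Lib.MP_36248f_gt

namespace Pool.Agent.Lib.MP_055fa7_gt

/-- the vertical plane over the real line -/
def P0 : Set H3 := {p | p.1.1.im = 0}

/-- integer matrices as complex matrices -/
noncomputable def mp : SL(2, ℤ) →* SL2C := Matrix.SpecialLinearGroup.map (Int.castRingHom ℂ)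

theorem mp_apply (g : SL(2, ℤ)) (i j : Fin 2) : mp g i j = (g i j : ℂ) := rfl

theorem isClosed_P0 : IsClosed P0 := isClosed_eq (by fun_prop) continuous_const

theorem mp_mem (g : SL(2, ℤ)) {p : H3} (hp : p ∈ P0) : act (mp g) p ∈ P0 := by
  have h : p.1.1 = (p.1.1.re : ℂ) := Complex.ext rfl hp
  change (act (mp g) p).1.1.im = 0
  rw [act_fst, h]
  simp only [mp_apply, map_intCast, Complex.conj_ofReal]
  norm_cast

theorem mp_image (g : SL(2, ℤ)) : act (mp g) '' P0 = P0 := by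
  refine Subset.antisymm (by rintro _ ⟨p, hp, rfl⟩; exact mp_mem g hp) fun p hp => ?_
  exact ⟨_, mp_mem g⁻¹ hp, by rw [map_inv, act_act_inv]⟩

theorem ht_of_zero {g : SL(2, ℤ)} (h : g 1 0 = 0) (p : H3) : (act (mp g) p).1.2 = p.1.2 := by
  have h1 := g.det_coe
  rw [Matrix.det_fin_two, h, mul_zero, sub_zero, mul_comm] at h1
  have h2 : ‖(g 1 1 : ℂ)‖ = 1 := by
    rcases Int.eq_one_or_neg_one_of_mul_eq_one h1 with h2 | h2 <;> simp [h2]
  rw [act_snd, den, mp_apply, mp_apply, h, Int.cast_zero, zero_mul, zero_add, h2]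
  simp

theorem ht_of_ne {g : SL(2, ℤ)} (h : g 1 0 ≠ 0) (p : H3) : (act (mp g) p).1.2 * p.1.2 ≤ 1 := by
  have h1 : (1 : ℝ) ≤ ‖mp g 1 0‖ := by
    rw [mp_apply, Complex.norm_intCast]
    exact_mod_cast Int.one_le_abs h
  rw [act_snd, div_mul_eq_mul_div, div_le_one (den_pos _ _), den]
  nlinarith [sq_nonneg ‖mp g 1 0 * p.1.1 + mp g 1 1‖, mul_pos p.2 p.2,
    mul_le_mul_of_nonneg_right (one_le_pow₀ (n := 2) h1) (mul_pos p.2 p.2).le]

theorem act_T (n : ℤ) (p : H3) :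
    dl p (act (mp (ModularGroup.T ^ n)) p) = (n : ℝ) ^ 2 / p.1.2 ^ 2 := by
  have h0 : (ModularGroup.T ^ n) 1 0 = 0 := by simp [ModularGroup.coe_T_zpow]
  have h1 : (act (mp (ModularGroup.T ^ n)) p).1.1 = p.1.1 + n := by
    simp only [act_fst, den, mp_apply]
    simp [ModularGroup.coe_T_zpow]
  rw [dl, ht_of_zero h0, h1]
  simp [pow_two]

theorem exists_fd {p : H3} (hp : p ∈ P0) :
    ∃ g : SL(2, ℤ), ‖(act (mp g) p).1.1‖ ≤ 1 / 2 ∧ 1 / 2 ≤ (act (mp g) p).1.2 := by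
  have h : p.1.1 = (p.1.1.re : ℂ) := Complex.ext rfl hp
  let z : UpperHalfPlane := ⟨⟨p.1.1.re, p.1.2⟩, p.2⟩
  obtain ⟨g, hg⟩ := ModularGroup.exists_smul_mem_fd z
  have h3 := ModularGroup.three_le_four_mul_im_sq_of_mem_fd hg
  have hd : den (mp g) p = Complex.normSq ((g 1 0 : ℂ) * z + g 1 1) := by
    rw [den, h, mp_apply, mp_apply]
    norm_cast
    simp only [Real.norm_eq_abs, sq_abs, Complex.normSq_apply, z]
    simp
    ring
  have hc : ((g • z : UpperHalfPlane) : ℂ) =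
      ((g 0 0 : ℂ) * z + g 0 1) / ((g 1 0 : ℂ) * z + g 1 1) := by
    simpa using UpperHalfPlane.coe_specialLinearGroup_apply g z
  have h1 : (act (mp g) p).1.1 = ((g • z).re : ℂ) := by
    rw [act_fst, h, ← UpperHalfPlane.coe_re, hc, Complex.div_re, ← hd]
    simp only [mp_apply, map_intCast, Complex.conj_ofReal, z]
    simp
    ring
  have h2 : (act (mp g) p).1.2 = (g • z).im := by
    rw [act_snd, hd, ModularGroup.im_smul_eq_div_normSq, ModularGroup.denom_apply]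
    rfl
  refine ⟨g, ?_, ?_⟩
  · rw [h1, Complex.norm_real]
    exact hg.2
  · rw [h2]
    nlinarith [(g • z).im_pos]

/-- a compact box -/
def box (R a b : ℝ) : Set H3 := {p | ‖p.1.1‖ ≤ R ∧ a ≤ p.1.2 ∧ p.1.2 ≤ b}

theorem isCompact_box (R : ℝ) {a : ℝ} (ha : 0 < a) (b : ℝ) : IsCompact (box R a b) := by
  rw [Subtype.isCompact_iff]
  convert (isCompact_closedBall (0 : ℂ) R).prod (isCompact_Icc (a := a) (b := b)) using 1
  ext p
  constructor
  · rintro ⟨q, hq, rfl⟩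
    exact ⟨mem_closedBall_zero_iff.2 hq.1, hq.2⟩
  · intro hp
    exact ⟨⟨p, ha.trans_le hp.2.1⟩, ⟨mem_closedBall_zero_iff.1 hp.1, hp.2⟩, rfl⟩

theorem exists_box {Q : Set H3} (hQ : IsCompact Q) : ∃ R a b, 0 < a ∧ Q ⊆ box R a b := by
  rcases Q.eq_empty_or_nonempty with rfl | hne
  · exact ⟨0, 1, 0, one_pos, empty_subset _⟩
  obtain ⟨p1, -, h1⟩ := hQ.exists_isMaxOn hne (f := fun p => ‖p.1.1‖) (by fun_prop)
  obtain ⟨p2, -, h2⟩ := hQ.exists_isMinOn hne (f := fun p => p.1.2) (by fun_prop)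
  obtain ⟨p3, -, h3⟩ := hQ.exists_isMaxOn hne (f := fun p => p.1.2) (by fun_prop)
  exact ⟨_, _, _, p2.2, fun p hp => ⟨h1 hp, h2 hp, h3 hp⟩⟩

theorem near_box {R a b : ℝ} {p q : H3} (hp : p ∈ box R a b) (h : dl p q ≤ 1) :
    q ∈ box (R + 2 * b) (a / 3) (3 * b) := by
  have h1 := p.2
  have h2 := q.2
  obtain ⟨h3, h4, h5⟩ := hp
  rw [dl, div_le_one (mul_pos h1 h2)] at h
  have h6 : q.1.2 ≤ 3 * p.1.2 := by nlinarith [sq_nonneg ‖p.1.1 - q.1.1‖]
  have h7 : p.1.2 ≤ 3 * q.1.2 := by nlinarith [sq_nonneg ‖p.1.1 - q.1.1‖]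
  have h8 : ‖p.1.1 - q.1.1‖ ≤ 2 * p.1.2 :=
    abs_le_of_sq_le_sq' (by nlinarith [sq_nonneg (p.1.2 - q.1.2)]) (by positivity) |>.2
  refine ⟨?_, by linarith, by linarith⟩
  have h9 := norm_sub_le p.1.1 (p.1.1 - q.1.1)
  rw [sub_sub_cancel] at h9
  linarith

/-- proper discontinuity -/
def PD (Γ : Subgroup SL2C) : Prop :=
  ∀ Q : Set H3, IsCompact Q → {γ | γ ∈ Γ ∧ ∃ p ∈ Q, act γ p ∈ Q}.Finite

theorem PD.free {Γ : Subgroup SL2C} (h : PD Γ)
    (tf : ∀ γ ∈ Γ, ∀ n : ℕ, 0 < n → γ ^ n = 1 → γ = 1 ∨ γ = -1) {γ : SL2C} (hγ : γ ∈ Γ) {p : H3}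
    (hp : act γ p = p) (q : H3) : act γ q = q := by
  have h1 : ∀ n : ℕ, act (γ ^ n) p = p := by
    intro n
    induction n with
    | zero => rw [pow_zero, act_one]
    | succ n ih => rw [pow_succ, act_mul, hp, ih]
  have h2 : IsOfFinOrder γ := by
    rw [← finite_powers]
    refine (h {p} isCompact_singleton).subset ?_
    rintro _ ⟨n, rfl⟩
    exact ⟨Γ.pow_mem hγ n, p, rfl, h1 n⟩
  obtain ⟨n, hn, h3⟩ := isOfFinOrder_iff_pow_eq_one.1 h2
  rcases tf γ hγ n hn h3 with rfl | rfl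
  · exact act_one q
  · rw [act_neg, act_one]

theorem PD.radius {Γ : Subgroup SL2C} (h : PD Γ)
    (tf : ∀ γ ∈ Γ, ∀ n : ℕ, 0 < n → γ ^ n = 1 → γ = 1 ∨ γ = -1) {Q : Set H3} (hQ : IsCompact Q) :
    ∃ ε > 0, ∀ γ ∈ Γ, ∀ q ∈ Q, dl q (act γ q) < ε → act γ q = q := by
  obtain ⟨R, a, b, ha, hb⟩ := exists_box hQ
  have hF := h _ (isCompact_box (R + 2 * b) (a := a / 3) (by positivity) (3 * b))
  have key : ∀ γ ∈ Γ, ∀ᶠ ε in nhdsWithin (0 : ℝ) (Ioi 0), ∀ q ∈ Q,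
      dl q (act γ q) < ε → act γ q = q := by
    intro γ hγ
    rcases Q.eq_empty_or_nonempty with rfl | hne
    · exact Filter.Eventually.of_forall fun _ _ h => h.elim
    obtain ⟨p, -, hp⟩ := hQ.exists_isMinOn hne (f := fun q => dl q (act γ q))
      (Continuous.comp (g := fun x : H3 × H3 => dl x.1 x.2) (f := fun q => (q, act γ q))
        continuous_dl (continuous_id.prodMk (continuous_act γ))).continuousOn
    rcases (dl_nonneg p (act γ p)).eq_or_lt with h0 | h0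
    · exact Filter.Eventually.of_forall fun _ q _ _ => h.free tf hγ (dl_eq_zero h0.symm).symm q
    · filter_upwards [Ioo_mem_nhdsGT h0] with ε hε q hq h1
      exact absurd (hε.2.trans_le (hp hq)) (not_lt.2 h1.le)
  obtain ⟨ε, h1, h2⟩ := (((Filter.eventually_all_finite hF).2 fun γ hγ => key γ hγ.1).and
    (Ioo_mem_nhdsGT one_pos)).exists
  refine ⟨ε, h2.1, fun γ hγ q hq h3 => h1 γ ⟨hγ, q, near_box (hb hq) ?_, near_box (hb hq) ?_⟩ q hq h3⟩
  · simp [dl]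
  · exact (h3.trans h2.2).le

end Pool.Agent.Lib.MP_055fa7_gt
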