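import Pool.Agent.Lib.MP_055fa7_gt.WallA
import Pool.Agent.Lib.MP_055fa7_gt.Ends

/-!
A precisely invariant plane whose stabiliser is a congruence subgroup with two cusps.
-/

open Set Matrix ComplexConjugate MatrixGroups
open Pool.Agent.Lib.MP_36248f_gt

namespace Pool.Agent.Lib.MP_055fa7_gt

/-- the standard plane is precisely invariant under `Λ` -/
structure Wall (Γ : Subgroup SL2C) (Λ : Subgroup SL(2, ℤ)) : Prop where
  fi : Λ.FiniteIndex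
  low : ∀ m ∈ Λ, (25 : ℤ) ∣ m 1 0
  sub : ∀ m ∈ Λ, mp m ∈ Γ
  inv : ∀ γ ∈ Γ, ∀ p ∈ P0, act γ p ∈ P0 → ∃ m ∈ Λ, act γ p = act (mp m) p
  pd : PD Γ
  tf : ∀ γ ∈ Γ, ∀ n : ℕ, 0 < n → γ ^ n = 1 → γ = 1 ∨ γ = -1

namespace Wall

variable {Γ : Subgroup SL2C} {Λ : Subgroup SL(2, ℤ)} (W : Wall Γ Λ)
include W

theorem inv' {γ : SL2C} (hγ : γ ∈ Γ) {p : H3} (hp : p ∈ P0) (h : act γ p ∈ P0) :
    ∃ m ∈ Λ, ∀ q, act γ q = act (mp m) q := by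
  obtain ⟨m, hm, h1⟩ := W.inv γ hγ p hp h
  refine ⟨m, hm, fun q => ?_⟩
  have h2 := W.pd.free W.tf (Γ.mul_mem (Γ.inv_mem (W.sub m hm)) hγ) (p := p)
    (by rw [act_mul, h1, act_inv_act]) q
  rw [act_mul] at h2
  rw [← act_act_inv (mp m) (act γ q), h2]

theorem precise {γ : SL2C} (hγ : γ ∈ Γ) : act γ '' P0 = P0 ∨ Disjoint (act γ '' P0) P0 := by
  rw [or_iff_not_imp_right, not_disjoint_iff]
  rintro ⟨_, ⟨p, hp, rfl⟩, h⟩
  obtain ⟨m, -, h1⟩ := W.inv' hγ hp h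
  rw [show act γ = act (mp m) from funext h1, mp_image]

theorem core (b : ℝ) : ∃ C : Set H3, IsCompact C ∧ C ⊆ P0 ∧ ∀ p ∈ P0,
    (∀ g : SL(2, ℤ), (act (mp g) p).1.2 ≤ b) → ∃ m ∈ Λ, act (mp m) p ∈ C := by
  have := W.fi
  refine ⟨⋃ c : SL(2, ℤ) ⧸ Λ, act (mp (c.out)⁻¹) '' (box (1 / 2) (1 / 2) b ∩ P0),
    isCompact_iUnion fun c => ((isCompact_box _ (by norm_num) _).inter_right isClosed_P0).image
      (continuous_act _), iUnion_subset fun c => ?_, fun p hp h => ?_⟩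
  · rintro _ ⟨q, hq, rfl⟩
    exact mp_mem _ hq.2
  · obtain ⟨g, h1, h2⟩ := exists_fd hp
    obtain ⟨m, hm⟩ := QuotientGroup.mk_out_eq_mul Λ g
    refine ⟨(m : SL(2, ℤ))⁻¹, Λ.inv_mem m.2, mem_iUnion.2 ⟨(g : SL(2, ℤ) ⧸ Λ),
      act (mp g) p, ⟨⟨h1, h2, h g⟩, mp_mem g hp⟩, ?_⟩⟩
    rw [hm, ← act_mul, ← map_mul]
    simp

theorem bound {Q : Set H3} (hQ : IsCompact Q) : ∃ b : ℝ, ∀ γ ∈ Γ, ∀ p, act γ p ∈ Q →
    ∀ g : SL(2, ℤ), (act (mp g) p).1.2 ≤ b := by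
  have := W.fi
  obtain ⟨ε, hε, h⟩ := W.pd.radius W.tf hQ
  have hn : Λ.normalCore.index ≠ 0 := Subgroup.FiniteIndex.index_ne_zero
  have hT : ModularGroup.T ^ (Λ.normalCore.index : ℤ) ∈ Λ.normalCore := by
    rw [zpow_natCast]
    exact Subgroup.pow_index_mem _ _
  generalize Λ.normalCore.index = n at hn hT
  have hn' : (0 : ℝ) < ((n : ℤ) : ℝ) ^ 2 := by positivity
  refine ⟨1 + ((n : ℤ) : ℝ) ^ 2 / ε, fun γ hγ p hp g => ?_⟩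
  by_contra hc
  rw [not_le] at hc
  have hm : g⁻¹ * ModularGroup.T ^ (n : ℤ) * g⁻¹⁻¹ ∈ Λ := hT g⁻¹
  rw [inv_inv] at hm
  have h1 : dl (act γ p) (act (γ * mp (g⁻¹ * ModularGroup.T ^ (n : ℤ) * g) * γ⁻¹) (act γ p)) =
      ((n : ℤ) : ℝ) ^ 2 / (act (mp g) p).1.2 ^ 2 := by
    rw [act_mul, act_inv_act, act_mul, dl_act, ← dl_act (mp g), map_mul, map_mul, map_inv, act_mul,
      act_mul, act_act_inv, act_T]
  have h2 := (act (mp g) p).2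
  have h3 := h _ (Γ.mul_mem (Γ.mul_mem hγ (W.sub _ hm)) (Γ.inv_mem hγ)) _ hp (by
    rw [h1, div_lt_iff₀ (by positivity)]
    have h4 : ((n : ℤ) : ℝ) ^ 2 / ε * ε = ((n : ℤ) : ℝ) ^ 2 := div_mul_cancel₀ _ hε.ne'
    have h5 : 0 < ((n : ℤ) : ℝ) ^ 2 / ε := by positivity
    nlinarith [mul_pos hε h2, mul_lt_mul_of_pos_left hc hε])
  rw [h3] at h1
  have h4 : 0 < ((n : ℤ) : ℝ) ^ 2 / (act (mp g) p).1.2 ^ 2 := by positivity
  rw [← h1] at h4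
  simp [dl] at h4

theorem fin {Q : Set H3} (hQ : IsCompact Q) : ∃ F : Set SL2C, F.Finite ∧ (∀ γ ∈ F, γ ∈ Γ) ∧
    ∀ γ ∈ Γ, ∀ p ∈ P0, act γ p ∈ Q → ∃ m ∈ Λ, γ * (mp m)⁻¹ ∈ F := by
  obtain ⟨b, hb⟩ := W.bound hQ
  obtain ⟨C, hC, -, h⟩ := W.core b
  refine ⟨_, W.pd _ (hC.union hQ), fun γ hγ => hγ.1, fun γ hγ p hp hq => ?_⟩
  obtain ⟨m, hm, h1⟩ := h p hp (hb γ hγ p hq)
  refine ⟨m, hm, Γ.mul_mem hγ (Γ.inv_mem (W.sub m hm)), _, Or.inl h1, Or.inr ?_⟩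
  rwa [act_mul, act_inv_act]

theorem locFin {Q : Set H3} (hQ : IsCompact Q) :
    {P' | ∃ γ ∈ Γ, P' = act γ '' P0 ∧ (P' ∩ Q).Nonempty}.Finite := by
  obtain ⟨F, hF, -, h⟩ := W.fin hQ
  refine (hF.image fun γ => act γ '' P0).subset ?_
  rintro _ ⟨γ, hγ, rfl, _, ⟨p, hp, rfl⟩, hq⟩
  obtain ⟨m, -, h1⟩ := h γ hγ p hp hq
  refine ⟨_, h1, ?_⟩
  rw [← map_inv]
  conv_rhs => rw [← mp_image m⁻¹, image_image]
  simp only [act_mul]

theorem isClosed_sat {A : Set H3} (hA : IsClosed A) (hP : A ⊆ P0)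
    (hi : ∀ m ∈ Λ, ∀ p ∈ A, act (mp m) p ∈ A) :
    IsClosed {q | ∃ γ ∈ Γ, ∃ p ∈ A, act γ p = q} := by
  have : LocallyCompactSpace H3 := (isOpen_lt continuous_const continuous_snd).locallyCompactSpace
  rw [← isOpen_compl_iff, isOpen_iff_mem_nhds]
  intro q hq
  obtain ⟨Q, hQ, hQ'⟩ := exists_compact_mem_nhds q
  obtain ⟨F, hF, hF', h⟩ := W.fin hQ
  have hB : IsClosed (⋃ γ ∈ F, act γ '' A) :=
    hF.isClosed_biUnion fun γ _ => (actH γ).isClosedMap _ hA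
  have hqB : q ∈ (⋃ γ ∈ F, act γ '' A)ᶜ := by
    intro h1
    obtain ⟨γ, hγ, p, hp, h2⟩ := mem_iUnion₂.1 h1
    exact hq ⟨γ, hF' γ hγ, p, hp, h2⟩
  filter_upwards [hQ', hB.isOpen_compl.mem_nhds hqB] with x hx hx'
  rintro ⟨γ, hγ, p, hp, rfl⟩
  obtain ⟨m, hm, h1⟩ := h γ hγ p (hP hp) hx
  exact hx' (mem_iUnion₂.2 ⟨_, h1, _, hi m hm p hp, by rw [act_mul, act_inv_act]⟩)

variable {K : Set S3} {π : H3 → S3} (H : IsHyp K Γ π)
include H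

theorem mem_iff {U : Set H3} (hi : ∀ m ∈ Λ, ∀ p ∈ U, act (mp m) p ∈ U) {p : H3} (hp : p ∈ P0) :
    π p ∈ π '' (P0 ∩ U) ↔ p ∈ U := by
  refine ⟨?_, fun h => ⟨p, ⟨hp, h⟩, rfl⟩⟩
  rintro ⟨q, hq, h⟩
  obtain ⟨γ, hγ, rfl⟩ := (H.fib _ _).1 h
  obtain ⟨m, hm, h1⟩ := W.inv γ hγ q hq.1 hp
  rw [h1]
  exact hi m hm q hq.2

theorem isOpen_img {U : Set H3} (hU : IsOpen U) (hi : ∀ m ∈ Λ, ∀ p ∈ U, act (mp m) p ∈ U) :
    IsOpen ((↑) ⁻¹' (π '' (P0 ∩ U)) : Set (π '' P0)) := by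
  have hi' : ∀ m ∈ Λ, ∀ p ∈ P0 \ U, act (mp m) p ∈ P0 \ U := fun m hm p hp =>
    ⟨mp_mem m hp.1, fun h => hp.2 (by
      have h1 := hi _ (Λ.inv_mem hm) _ h
      rwa [map_inv, act_inv_act] at h1)⟩
  have h1 := H.opn _ (W.isClosed_sat (isClosed_P0.sdiff hU) sdiff_subset hi').isOpen_compl
  convert h1.preimage (continuous_subtype_val (p := fun s => s ∈ π '' P0)) using 1
  ext ⟨_, p, hp, rfl⟩
  simp only [mem_preimage, W.mem_iff H hi hp]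
  constructor
  · intro h
    refine ⟨p, ?_, rfl⟩
    rintro ⟨γ, hγ, q, hq, rfl⟩
    obtain ⟨m, hm, h2⟩ := W.inv γ hγ q hq.1 hp
    exact (hi' m hm q hq).2 (h2 ▸ h)
  · rintro ⟨q, hq, h⟩
    by_contra hn
    obtain ⟨γ, hγ, h2⟩ := (H.fib _ _).1 h.symm
    exact hq ⟨γ, hγ, p, ⟨hp, hn⟩, h2⟩

theorem isClosed_pre : IsClosed (π ⁻¹' (π '' P0)) := by
  convert W.isClosed_sat isClosed_P0 Subset.rfl fun m _ p hp => mp_mem m hp using 1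
  ext q
  constructor
  · rintro ⟨p, hp, h⟩
    obtain ⟨γ, hγ, h1⟩ := (H.fib _ _).1 h
    exact ⟨γ, hγ, p, hp, h1⟩
  · rintro ⟨γ, hγ, p, hp, h1⟩
    exact ⟨p, hp, (H.fib _ _).2 ⟨γ, hγ, h1⟩⟩

theorem not_subset {U : Set H3}
    (hU : ∀ N : ℝ, ∃ p ∈ P0 ∩ U, ∃ g : SL(2, ℤ), N ≤ (act (mp g) p).1.2) {Q : Set (π '' P0)}
    (hQ : IsCompact Q) : ¬(↑) ⁻¹' (π '' (P0 ∩ U)) ⊆ Q := by
  intro hs
  let O : ℕ → Set H3 := fun N => ⋃ m ∈ Λ, {p | 1 / ((N : ℝ) + 1) < (act (mp m) p).1.2 ∧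
    (act (mp m) p).1.2 < N + 1}
  have hc : ∀ g : SL2C, Continuous fun p => (act g p).1.2 := fun g =>
    continuous_snd.comp (continuous_subtype_val.comp (continuous_act g))
  have hO : ∀ N, IsOpen (O N) := fun N => isOpen_biUnion fun m _ =>
    (isOpen_lt continuous_const (hc _)).inter (isOpen_lt (hc _) continuous_const)
  have hi : ∀ N, ∀ m ∈ Λ, ∀ p ∈ O N, act (mp m) p ∈ O N := by
    intro N m hm p hp
    obtain ⟨l, hl, h⟩ := mem_iUnion₂.1 hp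
    refine mem_iUnion₂.2 ⟨l * m⁻¹, Λ.mul_mem hl (Λ.inv_mem hm), ?_⟩
    simpa only [mem_ofPred_eq, map_mul, map_inv, act_mul, act_inv_act] using h
  have hm : Monotone O := by
    intro N N' h p hp
    obtain ⟨l, hl, h1, h2⟩ := mem_iUnion₂.1 hp
    have h3 : (N : ℝ) + 1 ≤ N' + 1 := by exact_mod_cast Nat.succ_le_succ h
    exact mem_iUnion₂.2 ⟨l, hl, (one_div_le_one_div_of_le (by positivity) h3).trans_lt h1,
      h2.trans_le h3⟩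
  obtain ⟨N, hN⟩ := hQ.elim_directed_cover (fun N => (↑) ⁻¹' (π '' (P0 ∩ O N)))
    (fun N => W.isOpen_img H (hO N) (hi N)) (by
      rintro ⟨_, p, hp, rfl⟩ -
      obtain ⟨N, hN⟩ := exists_nat_gt (max p.1.2 (1 / p.1.2))
      refine mem_iUnion.2 ⟨N, p, ⟨hp, mem_iUnion₂.2 ⟨1, Λ.one_mem, ?_⟩⟩, rfl⟩
      rw [mem_ofPred_eq, map_one, act_one, one_div_lt (by positivity) p.2]
      constructor <;> linarith [le_max_left p.1.2 (1 / p.1.2), le_max_right p.1.2 (1 / p.1.2)])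
    (Monotone.directed_le fun N N' h => preimage_mono (image_mono (inter_subset_inter_right _ (hm h))))
  obtain ⟨p, hp, g, hg⟩ := hU (N + 1)
  have h1 : π p ∈ π '' (P0 ∩ O N) := hN (hs (a := ⟨π p, p, hp.1, rfl⟩) ⟨p, hp, rfl⟩)
  obtain ⟨l, -, h2, h3⟩ := mem_iUnion₂.1 ((W.mem_iff H (hi N) hp.1).1 h1)
  have h4 : act (mp g) p = act (mp (g * l⁻¹)) (act (mp l) p) := by
    rw [map_mul, map_inv, act_mul, act_inv_act]
  rw [h4] at hg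
  by_cases h5 : (g * l⁻¹) 1 0 = 0
  · rw [ht_of_zero h5] at hg
    linarith
  · have h6 := ht_of_ne h5 (act (mp l) p)
    rw [div_lt_iff₀ (by positivity)] at h2
    nlinarith [(act (mp l) p).2]

theorem twoEnds : TwoEnds (π '' P0) := by
  let U : Prop → Set H3 := fun b => ⋃ g ∈ {g : SL(2, ℤ) | (25 : ℤ) ∣ g 1 0 ↔ b},
    {p | 1 < (act (mp g) p).1.2}
  have hc : ∀ g : SL2C, Continuous fun p => (act g p).1.2 := fun g =>
    continuous_snd.comp (continuous_subtype_val.comp (continuous_act g))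
  have hO : ∀ b, IsOpen (U b) := fun b => isOpen_biUnion fun g _ =>
    isOpen_lt continuous_const (hc _)
  have hr : ∀ m ∈ Λ, ∀ g : SL(2, ℤ), (25 : ℤ) ∣ g 1 0 → (25 : ℤ) ∣ (g * m) 1 0 := by
    intro m hm g hg
    rw [Matrix.SpecialLinearGroup.coe_mul, Matrix.mul_apply, Fin.sum_univ_two]
    exact (hg.mul_right _).add ((W.low m hm).mul_left _)
  have hi : ∀ b, ∀ m ∈ Λ, ∀ p ∈ U b, act (mp m) p ∈ U b := by
    intro b m hm p hp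
    obtain ⟨g, hg, h⟩ := mem_iUnion₂.1 hp
    refine mem_iUnion₂.2 ⟨g * m⁻¹, Iff.trans ⟨fun h1 => ?_, hr _ (Λ.inv_mem hm) g⟩ hg, ?_⟩
    · simpa using hr m hm _ h1
    · simpa only [mem_ofPred_eq, map_mul, map_inv, act_mul, act_inv_act] using h
  have hpt : ∀ (b : Prop) (g : SL(2, ℤ)), ((25 : ℤ) ∣ g 1 0 ↔ b) → ∀ N : ℝ,
      ∃ p ∈ P0 ∩ U b, ∃ g : SL(2, ℤ), N ≤ (act (mp g) p).1.2 := by
    intro b g hg N
    have h1 : act (mp g) (act (mp g⁻¹) ⟨(0, max N 2), lt_max_of_lt_right two_pos⟩) =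
        ⟨(0, max N 2), lt_max_of_lt_right two_pos⟩ := by rw [map_inv, act_act_inv]
    refine ⟨_, ⟨mp_mem g⁻¹ (p := ⟨(0, max N 2), lt_max_of_lt_right two_pos⟩) rfl,
      mem_iUnion₂.2 ⟨g, hg, ?_⟩⟩, g, ?_⟩
    · rw [mem_ofPred_eq, h1]
      exact lt_max_of_lt_right one_lt_two
    · rw [h1]
      exact le_max_left _ _
  refine ⟨_, _, W.isOpen_img H (hO True) (hi True), W.isOpen_img H (hO False) (hi False), ?_, ?_,
    fun Q hQ => W.not_subset H (hpt True 1 (by simp)) hQ,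
    fun Q hQ => W.not_subset H (hpt False ModularGroup.S (by simp [ModularGroup.S])) hQ⟩
  · rw [Set.disjoint_left]
    rintro ⟨_, p, hp, rfl⟩ h1 h2
    obtain ⟨g, hg, h3⟩ := mem_iUnion₂.1 ((W.mem_iff H (hi True) hp).1 h1)
    obtain ⟨g', hg', h4⟩ := mem_iUnion₂.1 ((W.mem_iff H (hi False) hp).1 h2)
    rw [mem_ofPred_eq] at h3 h4
    by_cases h5 : (g' * g⁻¹) 1 0 = 0
    · refine hg'.1 ?_
      rw [show g' = g' * g⁻¹ * g by simp, Matrix.SpecialLinearGroup.coe_mul, Matrix.mul_apply,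
        Fin.sum_univ_two, h5, zero_mul, zero_add]
      exact (hg.2 trivial).mul_left _
    · have h6 := ht_of_ne h5 (act (mp g) p)
      rw [map_mul, map_inv, act_mul, act_inv_act] at h6
      nlinarith
  · obtain ⟨C, hC, hCP, h⟩ := W.core 1
    have h1 : IsCompact ((↑) ⁻¹' (π '' C) : Set (π '' P0)) := by
      rw [Subtype.isCompact_iff, Subtype.image_preimage_coe, inter_eq_right.2 (image_mono hCP)]
      exact hC.image H.cont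
    refine h1.of_isClosed_subset ((W.isOpen_img H (hO True) (hi True)).union
      (W.isOpen_img H (hO False) (hi False))).isClosed_compl ?_
    rintro ⟨_, p, hp, rfl⟩ hn
    obtain ⟨m, hm, h2⟩ := h p hp fun g => not_lt.1 fun h3 => hn (by
      by_cases h4 : (25 : ℤ) ∣ g 1 0
      · exact Or.inl ⟨p, ⟨hp, mem_iUnion₂.2 ⟨g, iff_true_intro h4, h3⟩⟩, rfl⟩
      · exact Or.inr ⟨p, ⟨hp, mem_iUnion₂.2 ⟨g, iff_false_intro h4, h3⟩⟩, rfl⟩)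
    exact ⟨_, h2, ((H.fib _ _).2 ⟨_, W.sub m hm, rfl⟩).symm⟩

theorem main (hK : IsKnot K) : IsPlane P0 ∧
    (∀ γ ∈ Γ, act γ '' P0 = P0 ∨ Disjoint (act γ '' P0) P0) ∧
    (∀ Q : Set H3, IsCompact Q →
      {P' | ∃ γ ∈ Γ, P' = act γ '' P0 ∧ (P' ∩ Q).Nonempty}.Finite) ∧
    IsClosed (π ⁻¹' (π '' P0)) ∧ ¬IsCompact (π '' P0) ∧
    ∀ S : Set S3, Spans K S → IsEmpty (↥(π '' P0) ≃ₜ ↥S) := by
  obtain ⟨⟨f, hf, -, rfl⟩, -⟩ := hK
  refine ⟨⟨1, ?_⟩, fun γ hγ => W.precise hγ, fun Q hQ => W.locFin hQ, W.isClosed_pre H,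
    fun h => (W.twoEnds H).not_compact (isCompact_iff_compactSpace.1 h), fun S hS =>
      ⟨fun e => hS.not_twoEnds (isPreconnected_range hf) ((W.twoEnds H).homeo e)⟩⟩
  rw [show act 1 = id from funext act_one, image_id]
  rfl

end Wall

end Pool.Agent.Lib.MP_055fa7_gt
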